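import Pool.Agent.Helper71.CK.Goals

/-! MP_d34459_al: goal HGTS (height inequality). -/

set_option autoImplicit false

namespace Pool.Agent.Helper49.CK

open Pool.Agent.CK

theorem hgts (h1 : S_FS) (h2 : S_HGTNC) : S_HGTS := by
  obtain ⟨-, -, hsh, hnsh, -, -, hneg, -, -, -, -, -, -⟩ := h1
  obtain ⟨happ, hinv, hnc, -⟩ := h2
  intro D K ρ g L hρ hB
  -- labels are additive
  have hlab : ∀ j k : ℕ, 1 ≤ j → 1 ≤ k → j + k ≤ K →
      lab ρ g (L (j + k)) = lab ρ g (L j) + lab ρ g (L k) := by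
    intro j k hj hk hjk
    obtain ⟨B, hN, -, hb⟩ := hB j k hj hk hjk
    have h3 := (hnc ρ g _ B hN hb).1
    rw [(happ ρ g _ _).1, (happ ρ g _ _).1, (hinv ρ g _ hρ).1] at h3
    linarith
  have hmul : ∀ m : ℕ, 1 ≤ m → m ≤ K → lab ρ g (L m) = m * lab ρ g (L 1) := by
    intro m hm
    induction m, hm using Nat.le_induction with
    | base => intro _; simp
    | succ m hm ih =>
      intro hmK
      rw [hlab m 1 hm le_rfl hmK, ih (by omega)]
      push_cast
      ring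
  intro j k hj hk hjk
  obtain ⟨B, hN, hc, hb⟩ := hB j k hj hk hjk
  have h3 := (hnc ρ g _ B hN hb).2
  rw [(happ ρ g _ _).2, (happ ρ g _ _).2, (happ ρ g _ _).1, (hinv ρ g _ hρ).1, (hinv ρ g _ hρ).2] at h3
  have h4 : -sh (-lab ρ g (L (j + k))) (hgt ρ g (L (j + k))) +
        sh (-lab ρ g (L (j + k))) (hgt ρ g (L j)) +
        sh (-lab ρ g (L (j + k)) + lab ρ g (L j)) (hgt ρ g (L k)) =
      -sh (-lab ρ g (L (j + k)))
        (hgt ρ g (L (j + k)) - hgt ρ g (L j) - sh (j * lab ρ g (L 1)) (hgt ρ g (L k))) := by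
    rw [map_sub, map_sub, hsh, hmul j hj (by omega)]
    abel
  rw [h4, hneg, hnsh] at h3
  exact h3.trans hc

end Pool.Agent.Helper49.CK
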